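import Pool.Agent.Helper68.QC.St2

/-!
# PART M of project QD, module IBC: integration by parts with a compactly supported factor
-/

open MeasureTheory Set Filter Topology Complex
open scoped ContDiff ComplexConjugate ENNReal Manifold

namespace Pool.Agent.Helper40.QCM

open Pool.Agent.Helper68.QC

/-- a smooth cutoff function, equal to one near a compact set -/
lemma exists_cutoff {U K : Set ℂ} (hU : IsOpen U) (hK : IsCompact K) (hKU : K ⊆ U) :
    ∃ (χ : ℂ → ℂ) (N : Set ℂ), Tst U χ ∧ IsOpen N ∧ K ⊆ N ∧ ∀ z ∈ N, χ z = 1 := by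
  obtain ⟨L, hL, hKL, hLU⟩ := exists_compact_between hK hU hKU
  obtain ⟨f, hf1, hf0, -⟩ := exists_contMDiffMap_one_nhds_of_subset_interior 𝓘(ℝ, ℂ)
    hK.isClosed hKL (n := ⊤)
  obtain ⟨N, hN, hKN, hN1⟩ := eventually_nhdsSet_iff_exists.1 hf1
  have hsupp : tsupport (fun z => ((f z : ℝ) : ℂ)) ⊆ L := by
    refine closure_minimal ?_ hL.isClosed
    intro z hz
    by_contra h
    exact hz (by simp [hf0 z h])
  refine ⟨fun z => ((f z : ℝ) : ℂ), N, ⟨?_, ?_, ?_⟩, hN, hKN, fun z hz => ?_⟩
  · exact Complex.ofRealCLM.contDiff.comp f.contMDiff.contDiff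
  · exact hL.of_isClosed_subset (isClosed_tsupport _) hsupp
  · exact hsupp.trans hLU
  · simp [hN1 z hz]

/-- derivatives of a function which is locally constant on an open set -/
lemma dz_of_const {χ : ℂ → ℂ} {N : Set ℂ} (hN : IsOpen N) (h : ∀ z ∈ N, χ z = 1) {z : ℂ}
    (hz : z ∈ N) : dz χ z = 0 ∧ dzb χ z = 0 := by
  have h1 : χ =ᶠ[𝓝 z] fun _ => (1 : ℂ) := by
    filter_upwards [hN.mem_nhds hz] with w hw using h w hw
  have h2 : fderiv ℝ χ z = 0 := by
    rw [h1.fderiv_eq]
    simp
  constructor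
  · simp [dz, h2]
  · simp [dzb, h2]

/-- a function which vanishes on `U` has zero weak derivatives -/
lemma wd_zero {U : Set ℂ} {u : ℂ → ℂ} (hu : ∀ z ∈ U, u z = 0) :
    WD U u (fun _ => 0) (fun _ => 0) := by
  have h0 : ∀ (φ ψ : ℂ → ℂ), tsupport ψ ⊆ U → (∫ z, u z * ψ z) = - ∫ z, (0 : ℂ) * φ z := by
    intro φ ψ hψ
    have h1 : (fun z => u z * ψ z) = fun _ => (0 : ℂ) := by
      funext z
      by_cases hz : z ∈ tsupport ψ
      · rw [hu z (hψ hz), zero_mul]
      · rw [image_eq_zero_of_notMem_tsupport hz, mul_zero]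
    rw [h1]
    simp
  refine ⟨?_, ?_, ?_, ?_, ?_⟩
  · exact (continuousOn_const (c := (0 : ℂ))).congr hu
  · exact fun _ _ _ => MemLp.zero'
  · exact fun _ _ _ => MemLp.zero'
  · exact fun φ hφ => h0 φ (dz φ) hφ.hdz.sub
  · exact fun φ hφ => h0 φ (dzb φ) hφ.hdzb.sub

/-- integrability on a compact set of the products which occur -/
lemma intOn {U K : Set ℂ} (hK : IsCompact K) (hKU : K ⊆ U) {f a b c d : ℂ → ℂ}
    (hf : ContinuousOn f U) (ha : L2 U a) (hb : L2 U b) (hc : L2 U c) (hd : L2 U d) :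
    IntegrableOn (fun z => f z * (a z * b z - c z * d z)) K := by
  have h1 : IntegrableOn (fun z => a z * b z) K := (ha K hKU hK).integrable_mul (hb K hKU hK)
  have h2 : IntegrableOn (fun z => c z * d z) K := (hc K hKU hK).integrable_mul (hd K hKU hK)
  exact IntegrableOn.continuousOn_mul (hf.mono hKU) (h1.sub h2) hK

/-- an integral over `U` of a function which vanishes almost everywhere outside `K` -/
lemma integral_shrink {U K : Set ℂ} (hU : IsOpen U) (hK : IsCompact K) (hKU : K ⊆ U)
    {g : ℂ → ℂ} (hg : ∀ᵐ z ∂(volume.restrict (U \ K)), g z = 0) :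
    ∫ z in U, g z = ∫ z in K, g z := by
  have hm : MeasurableSet (U \ K) := hU.measurableSet.diff hK.measurableSet
  refine setIntegral_eq_of_subset_of_ae_sdiff_eq_zero hU.measurableSet.nullMeasurableSet hKU ?_
  exact (ae_restrict_iff' hm).1 hg

/-- MODULE IBC. -/
theorem pIBC (hIBP : StIBP) (hUNW : StUNW) : Pool.Agent.Helper68.QC.StIBC := by
  intro U f af bf u au bu v av bv K hU hf hu hv hK hKU hu0
  obtain ⟨χ, N, hχ, hN, hKN, hχ1⟩ := exists_cutoff hU hK hKU
  -- the weak derivatives of `u` vanish outside `K`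
  have hV : IsOpen (U \ K) := hU.sdiff hK.isClosed
  have hVm : MeasurableSet (U \ K) := hV.measurableSet
  have hw1 : WD (U \ K) u au bu := hu.mono sdiff_subset
  have hw2 : WD (U \ K) u (fun _ => 0) (fun _ => 0) := wd_zero fun z hz => hu0 z hz.1 hz.2
  obtain ⟨hau, hbu⟩ := hUNW (U \ K) u u au bu _ _ hV (fun _ _ => rfl) hw1 hw2
  -- shrinking the integrals
  have e1 : ∫ z in U, f z * (au z * bv z - bu z * av z) =
      ∫ z in K, f z * (au z * bv z - bu z * av z) := by
    refine integral_shrink hU hK hKU ?_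
    filter_upwards [hau, hbu] with z h1 h2
    rw [h1, h2]
    ring
  have e2 : ∫ z in U, u z * (af z * bv z - bf z * av z) =
      ∫ z in K, u z * (af z * bv z - bf z * av z) := by
    refine integral_shrink hU hK hKU ?_
    filter_upwards [ae_restrict_mem hVm] with z hz
    rw [hu0 z hz.1 hz.2, zero_mul]
  have e3 : ∫ z, χ z * (f z * (au z * bv z - bu z * av z) + u z * (af z * bv z - bf z * av z)) =
      ∫ z in K, (f z * (au z * bv z - bu z * av z) + u z * (af z * bv z - bf z * av z)) := by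
    have h1 : ∫ z, χ z * (f z * (au z * bv z - bu z * av z) +
        u z * (af z * bv z - bf z * av z)) = ∫ z in U, χ z * (f z * (au z * bv z - bu z * av z) +
        u z * (af z * bv z - bf z * av z)) := by
      refine (setIntegral_eq_integral_of_forall_compl_eq_zero ?_).symm
      intro z hz
      rw [image_eq_zero_of_notMem_tsupport (fun h => hz (hχ.sub h)), zero_mul]
    rw [h1, integral_shrink hU hK hKU]
    · refine setIntegral_congr_fun hK.measurableSet ?_
      intro z hz
      simp only [hχ1 z (hKN hz), one_mul]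
    · filter_upwards [hau, hbu, ae_restrict_mem hVm] with z h1 h2 hz
      rw [h1, h2, hu0 z hz.1 hz.2]
      ring
  have e4 : ∫ z, f z * u z * (dz χ z * bv z - dzb χ z * av z) = 0 := by
    have h1 : (fun z => f z * u z * (dz χ z * bv z - dzb χ z * av z)) = fun _ => (0 : ℂ) := by
      funext z
      by_cases hzN : z ∈ N
      · obtain ⟨h2, h3⟩ := dz_of_const hN hχ1 hzN
        rw [h2, h3]
        ring
      · by_cases hzU : z ∈ U
        · rw [hu0 z hzU (fun h => hzN (hKN h))]
          ring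
        · have h4 : z ∉ tsupport χ := fun h => hzU (hχ.sub h)
          rw [dz_eq_zero h4, dzb_eq_zero h4]
          ring
    rw [h1]
    simp
  have e5 := hIBP U f af bf u au bu v av bv χ hU hf hu hv hχ
  rw [e3, e4, integral_add (intOn hK hKU hf.cont hu.l2a hv.l2b hu.l2b hv.l2a)
    (intOn hK hKU hu.cont hf.l2a hv.l2b hf.l2b hv.l2a)] at e5
  rw [e1, e2]
  linear_combination e5

end Pool.Agent.Helper40.QCM
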