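import Pool.Agent.Helper68.QC.St6

/-!
# PART M of project QD, module LGC: a continuous logarithm of `nq μ ξ / ξ`

The homotopy `(t, ξ) ↦ nq (t μ) ξ / ξ` is lifted through the covering map `exp`.
-/

open MeasureTheory Set Filter Topology Complex
open scoped ContDiff ComplexConjugate ENNReal unitInterval

namespace Pool.Agent.Helper40.QCM

open Pool.Agent.Helper68.QC

/-- joint continuity of a family which is equicontinuous in `ξ` and continuous in `t` -/
lemma joint_cont {A : Type} [TopologicalSpace A] {V : Set ℂ} {W : ℂ → ℂ → ℂ} (c : A → ℂ) (x : A → ℂ)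
    (hc : Continuous c) (hx : Continuous x) (hcV : ∀ a, c a ∈ V)
    (hW : ∀ z, ContinuousOn (fun t => W t z) V)
    (heq : ∀ R : ℝ, ∀ ε > 0, ∃ δ > 0, ∀ t ∈ V, ∀ p q : ℂ, ‖p‖ ≤ R → ‖q‖ ≤ R → ‖p - q‖ ≤ δ →
      ‖W t p - W t q‖ ≤ ε) : Continuous (fun a => W (c a) (x a)) := by
  rw [continuous_iff_continuousAt]
  intro a
  rw [ContinuousAt, Metric.tendsto_nhds]
  intro ε hε
  obtain ⟨δ, hδ, h1⟩ := heq (‖x a‖ + 1) (ε / 2) (by positivity)
  have h2 : Tendsto (fun b => W (c b) (x a)) (𝓝 a) (𝓝 (W (c a) (x a))) := by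
    have h3 := hW (x a) (c a) (hcV a)
    refine h3.tendsto.comp ?_
    rw [tendsto_nhdsWithin_iff]
    exact ⟨hc.continuousAt, Eventually.of_forall hcV⟩
  have h4 := (Metric.tendsto_nhds.1 h2) (ε / 2) (by positivity)
  have h5 : ∀ᶠ b in 𝓝 a, dist (x b) (x a) < min δ 1 :=
    (Metric.tendsto_nhds.1 hx.continuousAt) (min δ 1) (lt_min hδ one_pos)
  filter_upwards [h4, h5] with b hb1 hb2
  rw [dist_eq_norm] at hb2
  have h6 : ‖x b‖ ≤ ‖x a‖ + 1 := by
    have : ‖x b‖ ≤ ‖x b - x a‖ + ‖x a‖ := by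
      simpa using norm_add_le (x b - x a) (x a)
    have h7 := hb2.trans_le (min_le_right δ 1)
    linarith
  have h8 := h1 (c b) (hcV b) (x b) (x a) h6 (by linarith) (hb2.le.trans (min_le_left _ _))
  calc dist (W (c b) (x b)) (W (c a) (x a))
      ≤ dist (W (c b) (x b)) (W (c b) (x a)) + dist (W (c b) (x a)) (W (c a) (x a)) :=
        dist_triangle _ _ _
    _ < ε / 2 + ε / 2 := by
        refine add_lt_add_of_le_of_lt ?_ hb1
        rw [dist_eq_norm]
        exact h8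
    _ = ε := by ring

/-- the solution for the coefficient zero is the identity -/
lemma nq_zero (hUNI : StUNI) {μ : ℂ → ℂ} (hμ : ∀ z, μ z = 0) (ξ : ℂ) : nq μ ξ = ξ := by
  have hB : Bel 0 μ := by
    have h0 : μ = fun _ => (0 : ℂ) := funext hμ
    refine ⟨?_, fun z => ?_⟩
    · rw [h0]
      exact measurable_const
    · rw [hμ z]
      simp
  have h1 : Sol μ (∅ : Set ℂ)ᶜ (Homeomorph.refl ℂ) := by
    rw [compl_empty]
    exact sol_zero isOpen_univ differentiableOn_id (ae_of_all _ hμ)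
  have h2 := hUNI 0 (by norm_num) μ hB (Homeomorph.refl ℂ) rfl rfl ∅ finite_empty h1
  rw [← h2]
  rfl

/-- MODULE LGC. -/
theorem pLGC : Pool.Agent.Helper68.QC.StLGC := by
  intro hEX hUNI hHOL hEQC _ k hk μ hμ
  -- a positive bound
  obtain ⟨k', hk0, hk1, hμ'⟩ : ∃ k' : ℝ, 0 < k' ∧ k' < 1 ∧ Bel k' μ := by
    refine ⟨max k (1 / 2), by positivity, max_lt hk (by norm_num), hμ.meas, fun z => ?_⟩
    exact (hμ.le z).trans (le_max_left _ _)
  obtain ⟨κ, hκ⟩ : ∃ κ : ℝ, κ = (k' + 1) / 2 := ⟨_, rfl⟩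
  obtain ⟨r, hr⟩ : ∃ r : ℝ, r = κ / k' := ⟨_, rfl⟩
  have hκ1 : κ < 1 := by rw [hκ]; linarith
  have hrk : r * k' = κ := by rw [hr]; field_simp
  have hr1 : 1 < r := by
    rw [hr, one_lt_div hk0, hκ]
    linarith
  have hBel : ∀ t ∈ Metric.ball (0 : ℂ) r, Bel κ (fun z => t * μ z) := by
    intro t ht
    rw [mem_ball_zero_iff] at ht
    refine ⟨measurable_const.mul hμ'.meas, fun z => ?_⟩
    rw [norm_mul, ← hrk]
    exact mul_le_mul ht.le (hμ'.le z) (norm_nonneg _) (by linarith)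
  have hI : ∀ t : I, ((t : ℝ) : ℂ) ∈ Metric.ball (0 : ℂ) r := by
    intro t
    rw [mem_ball_zero_iff, Complex.norm_real, Real.norm_of_nonneg t.2.1]
    exact t.2.2.trans_lt hr1
  -- the family
  have hN : ∀ t ∈ Metric.ball (0 : ℂ) r, IsNq (fun z => t * μ z) (nq (fun z => t * μ z)) :=
    fun t ht => hEX κ hκ1 _ (hBel t ht)
  have hne : ∀ t ∈ Metric.ball (0 : ℂ) r, ∀ ξ : ℂ, ξ ≠ 0 → nq (fun z => t * μ z) ξ ≠ 0 := by
    intro t ht ξ hξ h0
    apply hξ
    apply (nq (fun z => t * μ z)).injective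
    rw [h0, (hN t ht).zero]
  have hcont : Continuous (fun p : I × {z : ℂ // z ≠ 0} =>
      nq (fun z => ((p.1 : ℝ) : ℂ) * μ z) (p.2 : ℂ)) := by
    refine joint_cont (V := Metric.ball (0 : ℂ) r) (W := fun t ξ => nq (fun z => t * μ z) ξ)
      (fun p : I × {z : ℂ // z ≠ 0} => ((p.1 : ℝ) : ℂ)) (fun p => (p.2 : ℂ)) (by fun_prop)
      (by fun_prop) (fun p => hI p.1) ?_ ?_
    · intro z
      refine (hHOL κ hκ1 (Metric.ball 0 r) (fun t z => t * μ z) Metric.isOpen_ball hBel ?_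
        z).continuousOn
      intro z
      fun_prop
    · intro R ε hε
      obtain ⟨δ, hδ, h1⟩ := hEQC κ hκ1 R ε hε
      exact ⟨δ, hδ, fun t ht p q hp hq hpq => (h1 _ (hBel t ht) p q hp hq hpq).1⟩
  let H : C(I × {z : ℂ // z ≠ 0}, {z : ℂ // z ≠ 0}) :=
    ⟨fun p => ⟨nq (fun z => ((p.1 : ℝ) : ℂ) * μ z) (p.2 : ℂ) / (p.2 : ℂ),
      div_ne_zero (hne _ (hI p.1) _ p.2.2) p.2.2⟩,
      (hcont.div (by fun_prop) (fun p => p.2.2)).subtype_mk _⟩
  have hH : ∀ p, (H p : ℂ) = nq (fun z => ((p.1 : ℝ) : ℂ) * μ z) (p.2 : ℂ) / (p.2 : ℂ) :=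
    fun _ => rfl
  let f : C({z : ℂ // z ≠ 0}, ℂ) := ContinuousMap.const _ 0
  have H0 : ∀ a, H (0, a) = (fun z : ℂ ↦ (⟨_, z.exp_ne_zero⟩ : {z : ℂ // z ≠ 0})) (f a) := by
    intro a
    apply Subtype.ext
    rw [hH]
    simp only [f, ContinuousMap.const_apply, Complex.exp_zero]
    rw [nq_zero hUNI (fun z => by simp), div_self a.2]
  have cov := Complex.isCoveringMap_exp
  let G : C(I × {z : ℂ // z ≠ 0}, ℂ) := cov.liftHomotopy H f H0
  have hG : ∀ p, Complex.exp (G p) = (H p : ℂ) := by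
    intro p
    have := congrFun (cov.liftHomotopy_lifts H f H0) p
    exact congrArg Subtype.val this
  have hG1 : G (1, ⟨1, one_ne_zero⟩) = 0 := by
    have h1 : (fun _ : I => (0 : ℂ)) = cov.liftPath (H.comp
        ((ContinuousMap.id I).prodMk (ContinuousMap.const I ⟨1, one_ne_zero⟩)))
        (f ⟨1, one_ne_zero⟩) (H0 ⟨1, one_ne_zero⟩) := by
      rw [cov.eq_liftPath_iff]
      refine ⟨continuous_const, ?_, rfl⟩
      funext t
      apply Subtype.ext
      simp only [Function.comp_apply, Complex.exp_zero, ContinuousMap.comp_apply,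
        ContinuousMap.prod_eval, ContinuousMap.id_apply, ContinuousMap.const_apply]
      rw [hH]
      simp only
      rw [(hN _ (hI t)).one, div_one]
    exact (congrFun h1 1).symm
  refine ⟨fun ξ => if h : ξ ≠ 0 then G (1, ⟨ξ, h⟩) else 0, ?_, ?_, ?_⟩
  · rw [continuousOn_iff_continuous_domRestrict]
    have h1 : (({0}ᶜ : Set ℂ).domRestrict fun ξ => if h : ξ ≠ 0 then G (1, ⟨ξ, h⟩) else 0) =
        fun a : ({0}ᶜ : Set ℂ) => G (1, ⟨a, a.2⟩) := by
      funext a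
      exact dif_pos a.2
    rw [h1]
    exact G.continuous.comp (by fun_prop)
  · intro ξ hξ
    simp only
    rw [dif_pos hξ, hG, hH]
    simp only [Icc.coe_one, ofReal_one, one_mul]
    field_simp
  · simp only
    rw [dif_pos one_ne_zero]
    exact hG1

end Pool.Agent.Helper40.QCM
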